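import Pool.Agent.HAR.Stmts

/-!
# Squad HAR, row TOP (helper10): the largest blocks
-/

namespace Pool.Agent.HAR.H10

open Finset Filter Topology

/-- a block and the number of the blocks -/
theorem blk_le {V : Type} [DecidableEq V] {U : Finset V} (π : Finpartition U) {B : Finset V}
    (hB : B ∈ π.parts) : B.card + π.parts.card ≤ U.card + 1 := by
  have h1 := π.sum_card_parts
  rw [← Finset.add_sum_erase _ _ hB] at h1
  have h2 : (π.parts.erase B).card ≤ ∑ C ∈ π.parts.erase B, C.card := by
    rw [Finset.card_eq_sum_ones]
    exact Finset.sum_le_sum fun C hC =>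
      (π.nonempty_of_mem_parts (Finset.mem_of_mem_erase hC)).card_pos
  rw [Finset.card_erase_of_mem hB] at h2
  omega

/-- next to a block of the largest possible size all blocks are singletons -/
theorem blk_one {V : Type} [DecidableEq V] {U : Finset V} (π : Finpartition U)
    {B C : Finset V} (hB : B ∈ π.parts) (hC : C ∈ π.parts) (hBC : C ≠ B)
    (h : U.card + 1 ≤ B.card + π.parts.card) : C.card = 1 := by
  have h1 := π.sum_card_parts
  have hC' : C ∈ π.parts.erase B := Finset.mem_erase.2 ⟨hBC, hC⟩
  rw [← Finset.add_sum_erase _ _ hB, ← Finset.add_sum_erase _ _ hC'] at h1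
  have h2 : ((π.parts.erase B).erase C).card ≤ ∑ D ∈ (π.parts.erase B).erase C, D.card := by
    rw [Finset.card_eq_sum_ones]
    exact Finset.sum_le_sum fun D hD =>
      (π.nonempty_of_mem_parts (Finset.mem_of_mem_erase (Finset.mem_of_mem_erase hD))).card_pos
  rw [Finset.card_erase_of_mem hC', Finset.card_erase_of_mem hB] at h2
  have h3 := (π.nonempty_of_mem_parts hC).card_pos
  omega

/-- the partition into `S` and singletons -/
def piS {V : Type} [DecidableEq V] (U S : Finset V) (hS : S ⊆ U) (hne : S.Nonempty) :
    Finpartition U :=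
  (⊥ : Finpartition (U \ S)).extend (b := S) (c := U) hne.ne_empty
    Finset.sdiff_disjoint (Finset.sdiff_union_of_subset hS)

theorem mem_piS {V : Type} [DecidableEq V] {U S : Finset V} (hS : S ⊆ U) (hne : S.Nonempty)
    {B : Finset V} : B ∈ (piS U S hS hne).parts ↔ B = S ∨ ∃ a ∈ U \ S, {a} = B := by
  have : (piS U S hS hne).parts = insert S (⊥ : Finpartition (U \ S)).parts := rfl
  rw [this, Finset.mem_insert, Finpartition.mem_bot_iff]

theorem card_piS {V : Type} [DecidableEq V] {U S : Finset V} (hS : S ⊆ U) (hne : S.Nonempty) :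
    (piS U S hS hne).parts.card + S.card = U.card + 1 := by
  have h1 : (piS U S hS hne).parts.card = (⊥ : Finpartition (U \ S)).parts.card + 1 :=
    Finpartition.card_extend _ _ _
  rw [h1, Finpartition.card_bot, Finset.card_sdiff_of_subset hS]
  have := Finset.card_le_card hS
  omega

/-- the partitions with a block of the largest possible size -/
theorem eq_piS {V : Type} [DecidableEq V] {U S : Finset V} (hS : S ⊆ U) (hne : S.Nonempty)
    (π : Finpartition U) (hm : S ∈ π.parts) (h : U.card + 1 ≤ S.card + π.parts.card) :
    piS U S hS hne = π := by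
  apply Finpartition.ext
  ext B
  rw [mem_piS]
  constructor
  · rintro (rfl | ⟨a, ha, rfl⟩)
    · exact hm
    · rw [Finset.mem_sdiff] at ha
      obtain ⟨C, hC, haC⟩ := π.exists_mem ha.1
      have h1 : C ≠ S := by
        rintro rfl
        exact ha.2 haC
      have h2 := blk_one π hm hC h1 h
      obtain ⟨b, hb⟩ := Finset.card_eq_one.1 h2
      rw [hb, Finset.mem_singleton] at haC
      rw [haC, ← hb]
      exact hC
  · intro hB
    by_cases hBS : B = S
    · exact Or.inl hBS
    · right
      have h2 := blk_one π hm hB hBS h
      obtain ⟨b, hb⟩ := Finset.card_eq_one.1 h2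
      have hbB : b ∈ B := by rw [hb]; exact Finset.mem_singleton_self b
      refine ⟨b, Finset.mem_sdiff.2 ⟨π.subset hB hbB, fun hbS => hBS ?_⟩, hb.symm⟩
      exact π.eq_of_mem_parts hB hm hbB hbS

theorem hh_eq_ncard {V ι : Type} [DecidableEq V] (c : Finset V → ι) (x : ι → Bool)
    (U : Finset V) (j : ℕ) : hh c x U j =
      {π : Finpartition U | π.parts.card = j ∧
        ∀ B ∈ π.parts, B.card = 1 ∨ x (c B) = true}.ncard := rfl

theorem top : TopStmt := by
  intro V ι _ c U t T x x' ht htU hT hx
  constructor
  · intro j hj
    rw [hh_eq_ncard, hh_eq_ncard]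
    congr 1
    ext π
    simp only [Set.mem_setOf_eq, and_congr_right_iff]
    intro hπ
    have key : ∀ B ∈ π.parts, (B.card = 1 ∨ x (c B) = true) ↔ (B.card = 1 ∨ x' (c B) = true) := by
      intro B hB
      have h1 := blk_le π hB
      have h2 := (π.nonempty_of_mem_parts hB).card_pos
      by_cases h3 : B.card = 1
      · simp [h3]
      · rw [hx B (π.subset hB) (by omega) (fun h => by have := (hT B h).2; omega) (by omega)]
    exact forall₂_congr key
  · set j := U.card + 1 - t with hj
    have hfin : ∀ s : Set (Finpartition U), s.Finite := fun s => Set.toFinite s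
    set Q : Set (Finpartition U) := {π | ∃ B ∈ π.parts, B ∈ T} with hQ
    set P : (ι → Bool) → Set (Finpartition U) := fun z => {π : Finpartition U |
      π.parts.card = j ∧ ∀ B ∈ π.parts, B.card = 1 ∨ z (c B) = true} with hP
    have e1 : ∀ z : ι → Bool, hh c z U j = (P z ∩ Q).ncard + (P z \ Q).ncard := by
      intro z
      rw [hh_eq_ncard]
      exact (Set.ncard_inter_add_ncard_diff_eq_ncard (P z) Q (hfin _)).symm
    have e2 : P x \ Q = P x' \ Q := by
      ext π
      simp only [hP, hQ, Set.mem_diff, Set.mem_setOf_eq]
      refine and_congr_left fun hq => and_congr_right fun hπ => forall₂_congr fun B hB => ?_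
      have h1 := blk_le π hB
      have h2 := (π.nonempty_of_mem_parts hB).card_pos
      by_cases h3 : B.card = 1
      · simp [h3]
      · rw [hx B (π.subset hB) (by omega) (fun h => hq ⟨B, hB, h⟩) (by omega)]
    have e3 : ∀ z : ι → Bool, (P z ∩ Q).ncard = (T.filter fun S => z (c S) = true).card := by
      intro z
      have hne : ∀ S ∈ T.filter fun S => z (c S) = true, S ⊆ U ∧ S.Nonempty := fun S hS => by
        have h1 := hT S (Finset.mem_filter.1 hS).1
        exact ⟨h1.1, Finset.card_pos.1 (by omega)⟩
      rw [← Set.ncard_coe_finset]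
      symm
      refine Set.ncard_congr (fun S hS => piS U S (hne S hS).1 (hne S hS).2) ?_ ?_ ?_
      · intro S hS
        have hS' := Finset.mem_filter.1 hS
        have h1 := hT S hS'.1
        have h2 := card_piS (hne S hS).1 (hne S hS).2
        refine ⟨⟨?_, ?_⟩, S, (mem_piS _ _).2 (Or.inl rfl), hS'.1⟩
        · rw [hj]
          omega
        · intro B hB
          rcases (mem_piS _ _).1 hB with h | ⟨a, -, h⟩
          · right
            rw [h]
            exact hS'.2
          · left
            rw [← h]
            exact Finset.card_singleton a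
      · intro S S' hS hS' h
        have h1 : S ∈ (piS U S' (hne S' hS').1 (hne S' hS').2).parts := by
          rw [← h]
          exact (mem_piS _ _).2 (Or.inl rfl)
        rcases (mem_piS _ _).1 h1 with h | ⟨a, -, h⟩
        · exact h
        · have h2 := (hT S (Finset.mem_filter.1 hS).1).2
          rw [← h, Finset.card_singleton] at h2
          omega
      · rintro π ⟨⟨h1, h2⟩, B, hB, hBT⟩
        have h3 := hT B hBT
        have h4 : z (c B) = true := by
          rcases h2 B hB with h | h
          · omega
          · exact h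
        refine ⟨B, Finset.mem_filter.2 ⟨hBT, h4⟩, ?_⟩
        exact eq_piS _ _ π hB (by omega)
    rw [e1, e1, e2, e3, e3]
    push_cast
    ring

end Pool.Agent.HAR.H10
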